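import Pool.Agent.H345R2.A2.Lin
import Pool.Agent.TH822.AA.Main

/-!
# Montgomery's theorem in almost all short intervals, unconditionally, in the full range

Fix `0 < η < 1` and a Lipschitz test function `ψ` vanishing outside `(-μ, μ)`, where
`μ < (1 + η)/2`.  For every `T ^ η ≤ H ≤ T / 8` and all `t ∈ [T, 2T]` outside a set
of measure `T ^ (1 - δ)`, the pair correlation function
`F(α) = (H log T / 2π)⁻¹ ∑ T ^ (α (ρ - ρ')) exp ((ρ - ρ')² / 4)` of all the nontrivial zeros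
with ordinate in `(t, t + H]`, integrated against `ψ`, is `ψ(0) + ∫ |α| ψ(α) dα` up to `ε`.
-/

open Filter Topology Complex MeasureTheory

namespace Pool.Agent.Results.MP_f58427_nt.AlmostAllShortPairsFullRange

/-- the nontrivial zeros of zeta with ordinate in `(a, b]` -/
def zeros (a b : ℝ) : Set ℂ :=
  {s : ℂ | riemannZeta s = 0 ∧ 0 < s.re ∧ s.re < 1 ∧ a < s.im ∧ s.im ≤ b}

/-- the multiplicity of a zero -/
noncomputable def m (s : ℂ) : ℂ := (analyticOrderNatAt riemannZeta s : ℂ)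

/-- the pair correlation function of the zeros with ordinate in `(t, t + H]` -/
noncomputable def F (t H T α : ℝ) : ℂ :=
  ((H * Real.log T / (2 * Real.pi) : ℝ) : ℂ)⁻¹ * ∑ᶠ s ∈ zeros t (t + H), ∑ᶠ s' ∈ zeros t (t + H),
    m s * m s' * ((T : ℂ) ^ ((α : ℂ) * (s - s')) * cexp ((s - s') ^ 2 / 4))

/-- the main term -/
noncomputable def M (ψ : ℝ → ℝ) (μ : ℝ) : ℝ := ψ 0 + ∫ α in (-μ)..μ, |α| * ψ α

lemma zeros_eq (T₁ T₂ : ℝ) : zeros T₁ T₂ = H370.zset riemannZeta T₁ T₂ := by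
  ext s
  simp only [zeros, H370.zset, Set.mem_ofPred_eq]
  tauto

/-- the sets of zeros that are summed over are finite -/
theorem zeros_finite (T₁ T₂ : ℝ) (h : 0 < T₁) : (zeros T₁ T₂).Finite := by
  rw [zeros_eq]
  exact H370.zset_finite' H370.good_zeta T₁ T₂ h

lemma F_eq (t H T α : ℝ) (ht : 1 ≤ t) (hT : 0 < T) :
    F t H T α = (((H * Real.log T / (2 * Real.pi))⁻¹ *
      H370.A2.JN riemannZeta t (t + H) (α * Real.log T) : ℝ) : ℂ) := by
  have hpi : (Real.sqrt Real.pi : ℂ) ≠ 0 := by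
    rw [Ne, Complex.ofReal_eq_zero]; positivity
  have hT' : (T : ℂ) ≠ 0 := by exact_mod_cast hT.ne'
  unfold F H370.A2.JN
  rw [zeros_eq, H370.finsum_Zf H370.good_zeta ht]
  push_cast
  rw [H370.JJ_eq H370.good_zeta ht, mul_div_cancel_left₀ _ hpi]
  congr 1
  refine Finset.sum_congr rfl fun s _ => ?_
  rw [H370.finsum_Zf H370.good_zeta ht]
  refine Finset.sum_congr rfl fun s' _ => ?_
  have e1 : (T : ℂ) ^ ((α : ℂ) * (s - s')) = cexp (I * ((α * Real.log T : ℝ) : ℂ) *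
      (H370.zz s - H370.zz s')) := by
    rw [Complex.cpow_def_of_ne_zero hT', ← Complex.ofReal_log hT.le]
    congr 1
    unfold H370.zz
    push_cast
    linear_combination ((Real.log T : ℂ) * α * (s - s')) * I_sq
  have e2 : (s - s') ^ 2 / 4 = -(H370.zz s - H370.zz s') ^ 2 / 4 := by
    unfold H370.zz
    linear_combination ((s - s') ^ 2 / 4) * I_sq
  rw [e1, e2]
  rfl

/-- the function `F` is real -/
theorem F_real (t H T α : ℝ) (ht : 1 ≤ t) (hT : 0 < T) : (F t H T α).im = 0 := by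
  rw [F_eq t H T α ht hT, Complex.ofReal_im]

theorem result :
    ∀ η μ ε : ℝ, 0 < η → η < 1 → 0 < μ → μ < (1 + η) / 2 → 0 < ε →
    ∀ ψ : ℝ → ℝ, (∃ K : ℝ, ∀ x y, |ψ x - ψ y| ≤ K * |x - y|) → (∀ x, μ ≤ |x| → ψ x = 0) →
    ∃ δ : ℝ, 0 < δ ∧ ∃ T₀ : ℝ, ∀ T : ℝ, T₀ ≤ T → ∀ H : ℝ, T ^ η ≤ H → H ≤ T / 8 →
      volume {t : ℝ | T ≤ t ∧ t ≤ 2 * T ∧
        ε < ‖(∫ α in (-μ)..μ, (ψ α : ℂ) * F t H T α) - (M ψ μ : ℂ)‖} ≤
          ENNReal.ofReal (T ^ (1 - δ)) := by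
  intro η μ ε hη0 hη1 hμ hμη hε ψ ⟨K, hK⟩ hz
  obtain ⟨δ, hδ, T0, hT0, h⟩ := H370.A2.almost_psi H370.good_zeta H370.A2.lamC_norm
      (fun s hs _ => H370.A2.ld_zeta s hs) (by positivity : (0 : ℝ) ≤ η / 4)
      (Pool.Agent.TH822.AA.bz_z (η / 4) (by positivity) (by linarith)) η μ ε hη0 hη1 hμ
      (by linarith) (by nlinarith) hε ψ K hK hz
  refine ⟨δ, hδ, T0, fun T hT H hH1 hH2 => (measure_mono ?_).trans (h T hT H hH1 hH2)⟩
  rintro t ⟨ht1, ht2, ht3⟩
  refine ⟨⟨ht1, ht2⟩, fun hcon => ?_⟩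
  obtain ⟨-, g2⟩ := hcon
  have hTpos : 0 < T := by linarith
  have hL : 0 < Real.log T := Real.log_pos (by linarith)
  have hHpos : 0 < H := lt_of_lt_of_le (Real.rpow_pos_of_pos hTpos _) hH1
  have hM0 : 0 < H * Real.log T / (2 * Real.pi) := by have := Real.pi_pos; positivity
  have h1 : ∫ α in (-μ)..μ, (ψ α : ℂ) * F t H T α =
      (((H * Real.log T / (2 * Real.pi))⁻¹ *
      ∫ α in (-μ)..μ, ψ α * H370.A2.JN riemannZeta t (t + H) (α * Real.log T) : ℝ) : ℂ) := by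
    rw [← intervalIntegral.integral_const_mul, ← intervalIntegral.integral_ofReal]
    refine intervalIntegral.integral_congr fun α _ => ?_
    show (ψ α : ℂ) * F t H T α = _
    rw [F_eq t H T α (by linarith) hTpos]
    push_cast
    ring
  rw [h1, ← Complex.ofReal_sub, Complex.norm_real, Real.norm_eq_abs] at ht3
  have h2 : (H * Real.log T / (2 * Real.pi))⁻¹ *
      (∫ α in (-μ)..μ, ψ α * H370.A2.JN riemannZeta t (t + H) (α * Real.log T)) - M ψ μ =
      (H * Real.log T / (2 * Real.pi))⁻¹ *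
      ((∫ α in (-μ)..μ, ψ α * H370.A2.JN riemannZeta t (t + H) (α * Real.log T)) -
      (H * Real.log T / (2 * Real.pi)) * M ψ μ) := by
    rw [mul_sub, inv_mul_cancel_left₀ hM0.ne']
  rw [h2, abs_mul, abs_of_pos (inv_pos.2 hM0), inv_mul_eq_div, lt_div_iff₀ hM0] at ht3
  exact absurd (ht3.trans_le g2) (lt_irrefl _)

end Pool.Agent.Results.MP_f58427_nt.AlmostAllShortPairsFullRange
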