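import Pool.Agent.TH629.DZ.Core

/-!
# The density Hales-Jewett theorem for the zeros of zeta

No hypothesis is assumed.  For `b ∈ ℝ ^ (k + 1)` let `P(b)` be the number of the families of `k + 1`
ordinates of simple zeros of zeta on the critical line up to `T` whose differences are, up to `r` mean
spacings, the differences of the coordinates of `b`.  For every `k` and every `r > 0` (however small)
there is `n` such that among any `n` vectors `a_1, …, a_n` (of size at most `κ T log T` mean spacings)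
there are some, `a_j`, `j ∈ I`, with `P(∑_{j ∈ I} a_j) ≫ T log T`.  With all `a_j` equal to `a` this is
the theorem of Szemeredi and Gallai for the zeros: `P(m a) ≫ T log T` for some `1 ≤ m ≤ n`.  The same
is proved for the zeros of all primitive Dirichlet L-functions in the intervals `(T, T + H]`,
`T ^ h ≤ H ≤ T`, if `c(h) < 2`, with `n` independent of the L-function.

Idea of the proof.  By the trace inequality with the Montgomery-Taylor kernel the union `U` of the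
intervals of length `r` mean spacings centred at the simple critical zeros has positive density
(starting library, and Pool.Agent.TH300).  For many `t` the set of the words `w ∈ {0, …, k} ^ n` with
`t + ∑_j a_j(w_j) ∈ U` is dense, and contains a combinatorial line by the density Hales-Jewett theorem
(Pool.Agent.Helper868.DHJ).
-/

set_option autoImplicit false

open Filter Topology Complex MeasureTheory

namespace Pool.Agent.Results.MP_f58427_nt.PatternSums

/-- the nontrivial zeros of `F` with ordinate in `(T₁, T₂]` -/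
def zeros (F : ℂ → ℂ) (T₁ T₂ : ℝ) : Set ℂ :=
  {s : ℂ | F s = 0 ∧ 0 < s.re ∧ s.re < 1 ∧ T₁ < s.im ∧ s.im ≤ T₂}

/-- the multiplicity of a zero -/
noncomputable def mult (F : ℂ → ℂ) (s : ℂ) : ℕ := analyticOrderNatAt F s

/-- `x` is the ordinate in `(T₁, T₂]` of a simple zero of `F` on the critical line -/
def IsSimpleOrd (F : ℂ → ℂ) (T₁ T₂ x : ℝ) : Prop :=
  (1 / 2 + x * I : ℂ) ∈ zeros F T₁ T₂ ∧ mult F (1 / 2 + x * I : ℂ) = 1

/-- `P(b)`: the number of the families `x_0, …, x_k` of ordinates in `(T₁, T₂]` of simple zeros of `F`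
on the critical line such that, in units of `2π / log τ`, the difference `x_i - x_j` is within `r` of
`b_i - b_j` for all `i, j` -/
noncomputable def P {k : ℕ} (F : ℂ → ℂ) (τ T₁ T₂ r : ℝ) (b : Fin (k + 1) → ℝ) : ℕ :=
  {x : Fin (k + 1) → ℝ | (∀ i, IsSimpleOrd F T₁ T₂ (x i)) ∧
    ∀ i j, |(x i - x j) * Real.log τ / (2 * Real.pi) - (b i - b j)| < r}.ncard

/-- the Montgomery-Taylor constant -/
noncomputable def cMT : ℝ :=
  Real.sqrt 2 * Real.tan (1 / Real.sqrt 2) / (1 + Real.tan (1 / Real.sqrt 2) / Real.sqrt 2)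

/-- the mean square of the Montgomery-Taylor window, `1.0062...` -/
noncomputable def R0 : ℝ :=
  (1 + Real.sin (Real.sqrt 2) / Real.sqrt 2) / (4 * Real.sin (1 / Real.sqrt 2) ^ 2)

/-- the constant for intervals of length `T^h`; `c 1 = cMT⁻¹ = 1.3274...` -/
noncomputable def c (h : ℝ) : ℝ := R0 / h + h * (cMT⁻¹ - R0)

/-! ### Zeros -/

lemma zeros_eq (F : ℂ → ℂ) (T₁ T₂ : ℝ) : zeros F T₁ T₂ = H370.zset F T₁ T₂ := by
  ext s
  simp only [zeros, H370.zset, Set.mem_ofPred_eq]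
  tauto

/-- modulus `1`: the Riemann zeta function -/
theorem zeta_case (χ : DirichletCharacter ℂ 1) :
    χ.IsPrimitive ∧ DirichletCharacter.LFunction χ = riemannZeta := by
  refine ⟨?_, DirichletCharacter.LFunction_modOne_eq⟩
  rw [DirichletCharacter.level_one' χ rfl]
  exact DirichletCharacter.isPrimitive_one_level_one

/-- the sets of zeros of zeta are finite -/
theorem zeros_finite_zeta (T : ℝ) : (zeros riemannZeta 0 T).Finite := by
  rw [zeros_eq]
  exact H370.zeta_zeros_finite T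

/-- the sets of zeros of the L-functions are finite -/
theorem zeros_finite {q : ℕ} [NeZero q] (χ : DirichletCharacter ℂ q) (hχ : χ.IsPrimitive)
    (T₁ T₂ : ℝ) (hT : 1 ≤ T₁) : (zeros (DirichletCharacter.LFunction χ) T₁ T₂).Finite := by
  rw [zeros_eq]
  exact H370.zset_finite (H370.good_dirichlet χ hχ) T₁ T₂ hT

theorem cMT_inv : cMT⁻¹ = H370.cMTinv := H370.cMTinv_eq

theorem c_eq {h : ℝ} (hh : 0 < h) : c h = H295Iso.c0 h := by
  have h1 : cMT⁻¹ = H370.cMTinv := H370.cMTinv_eq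
  have h2 := H228SI.constS 1 one_pos le_rfl
  have h4 : Real.sqrt 2 / 2 = 1 / Real.sqrt 2 := by
    rw [div_eq_div_iff (by norm_num) (by positivity), Real.mul_self_sqrt (by norm_num), one_mul]
  have h3 : H295SI.RS (Real.sqrt 2) 0 = R0 := by
    unfold H295SI.RS R0
    have hs : Real.sqrt 2 ^ 2 = 2 := Real.sq_sqrt (by norm_num)
    rw [if_pos (by norm_num), hs, h4]
    simp only [abs_zero, sub_zero, mul_zero, Real.cos_zero, mul_one]
    ring
  have h5 : H295SI.cc 1 = H370.cMTinv := by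
    unfold H295SI.cc H370.cMTinv
    rfl
  rw [mul_one, h5] at h2
  unfold c H295Iso.c0 H295SI.cR
  unfold H295SI.cR at h2
  rw [h3] at h2 ⊢
  rw [h1, ← h2]
  ring

lemma ord_bd {F : ℂ → ℂ} {T₁ T₂ x : ℝ} (hx : IsSimpleOrd F T₁ T₂ x) : T₁ < x ∧ x ≤ T₂ := by
  have him : (1 / 2 + (x : ℂ) * I).im = x := by simp
  have := hx.1.2.2.2
  rw [him] at this
  exact this

lemma ord_finite {F : ℂ → ℂ} {T₁ T₂ : ℝ} (hfin : (zeros F T₁ T₂).Finite) :
    {x : ℝ | IsSimpleOrd F T₁ T₂ x}.Finite := by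
  refine Set.Finite.of_finite_image (f := fun x : ℝ => (1 / 2 + x * I : ℂ))
    (hfin.subset ?_) ?_
  · rintro s ⟨x, hx, rfl⟩
    exact hx.1
  · intro x _ y _ hxy
    have := congrArg Complex.im hxy
    simpa using this

/-- the sets counted by `P` are finite -/
theorem P_finite {k : ℕ} {F : ℂ → ℂ} {T₁ T₂ : ℝ} (hfin : (zeros F T₁ T₂).Finite) (τ r : ℝ)
    (b : Fin (k + 1) → ℝ) : {x : Fin (k + 1) → ℝ | (∀ i, IsSimpleOrd F T₁ T₂ (x i)) ∧
    ∀ i j, |(x i - x j) * Real.log τ / (2 * Real.pi) - (b i - b j)| < r}.Finite := by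
  refine (Set.Finite.pi (fun _ : Fin (k + 1) => ord_finite hfin)).subset ?_
  rintro x ⟨h1, -⟩
  rw [Set.mem_pi]
  intro i _
  exact h1 i

lemma P_mono {k : ℕ} {F : ℂ → ℂ} {T₁ T₂ : ℝ} (hfin : (zeros F T₁ T₂).Finite) (τ : ℝ) {r r' : ℝ}
    (hr : r' ≤ r) (b : Fin (k + 1) → ℝ) : P F τ T₁ T₂ r' b ≤ P F τ T₁ T₂ r b := by
  unfold P
  apply Set.ncard_le_ncard _ (P_finite hfin τ r b)
  rintro p ⟨h1, h2⟩
  exact ⟨h1, fun i j => (h2 i j).trans_le hr⟩

lemma P_ge {k : ℕ} {F : ℂ → ℂ} {T₁ T₂ : ℝ} (hfin : (zeros F T₁ T₂).Finite) {τ : ℝ} (hτ : 1 < τ)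
    (r : ℝ) (b : Fin (k + 1) → ℝ) {S : Finset ℝ} (hS : ∀ x ∈ S, IsSimpleOrd F T₁ T₂ x) :
    (Pool.Agent.TH629.DZ.PS S b (2 * Real.pi / Real.log τ) (r * (2 * Real.pi / Real.log τ))).card ≤
      P F τ T₁ T₂ r b := by
  classical
  have hpi := Real.pi_pos
  have hlog : 0 < Real.log τ := Real.log_pos hτ
  set σ : ℝ := 2 * Real.pi / Real.log τ with hσ
  have hσ0 : 0 < σ := by positivity
  unfold Pool.Agent.TH629.DZ.PS P
  rw [← Set.ncard_coe_finset]
  apply Set.ncard_le_ncard _ (P_finite hfin τ r b)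
  intro x hx
  rw [Finset.mem_coe, Finset.mem_filter, Fintype.mem_piFinset] at hx
  refine ⟨fun i => hS _ (hx.1 i), fun i j => ?_⟩
  have h1 := hx.2 i j
  have e : x i - x j - (b i - b j) * σ =
      ((x i - x j) * Real.log τ / (2 * Real.pi) - (b i - b j)) * σ := by
    rw [hσ]; field_simp
  rw [e, abs_mul, abs_of_pos hσ0] at h1
  exact lt_of_mul_lt_mul_right h1 hσ0.le

/-! ### The positive density of the neighbourhoods -/

/-- the data for zeta in the whole range -/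
lemma zeta_data : ∃ T₀ : ℝ, 10 ≤ T₀ ∧ ∀ T : ℝ, T₀ ≤ T → 2 * Real.pi ≤ Real.log T ∧
      ∃ S : Finset ℝ, (∀ x ∈ S, IsSimpleOrd riemannZeta 0 T x) ∧ ∀ r : ℝ, 0 < r → r ≤ 9 / 10 →
      r * (1 / 2) * T ≤
        (volume (Pool.Agent.W201.UU (r * (2 * Real.pi / Real.log T) / 2) S)).toReal := by
  have hpi := Real.pi_pos
  have hcn := H370.Expl.cMTinv_num
  obtain ⟨T₁, hT₁, h⟩ := Pool.Agent.TH300.ZS.nbhd_full (ε := 1 / 10) (by norm_num) (by norm_num)
  refine ⟨max T₁ (max 10 (Real.exp (2 * Real.pi))),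
    (le_max_left _ _).trans (le_max_right _ _), fun T hT => ?_⟩
  have hTT1 : T₁ ≤ T := (le_max_left _ _).trans hT
  have hT10 : 10 ≤ T := ((le_max_left _ _).trans (le_max_right _ _)).trans hT
  have hTe : Real.exp (2 * Real.pi) ≤ T := ((le_max_right _ _).trans (le_max_right _ _)).trans hT
  have hlog1 : 2 * Real.pi ≤ Real.log T := by
    rw [Real.le_log_iff_exp_le (by linarith)]
    linarith
  obtain ⟨S, hS⟩ := Pool.Agent.TH300.ZS.isAF_exists T
  refine ⟨hlog1, S, fun x hx => ?_, fun r hr hr1 => ?_⟩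
  · obtain ⟨a3, a4⟩ := (hS x).mp hx
    rw [mul_comm] at a3 a4
    exact ⟨by rw [zeros_eq]; exact a3, a4⟩
  · refine le_trans ?_ (h T hTT1 S hS r hr hr1)
    norm_num at hcn
    have : 0 < r * T := by positivity
    nlinarith

lemma scale_le {T r : ℝ} (hr0 : 0 < r) (hr1 : r ≤ 9 / 10) (hlog1 : 2 * Real.pi ≤ Real.log T) :
    r * (2 * Real.pi / Real.log T) ≤ 1 := by
  have hpi := Real.pi_pos
  have hlog : 0 < Real.log T := by linarith
  have : 2 * Real.pi / Real.log T ≤ 1 := by rw [div_le_one hlog]; exact hlog1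
  have h0 : 0 ≤ 2 * Real.pi / Real.log T := by positivity
  nlinarith

/-! ### The patterns -/

/-- the common final step -/
lemma core {k n : ℕ} {p r : ℝ} (hr : 0 < r) (hp : 0 < p)
    (hn : ∀ A : Set (Fin n → Fin (k + 1)), Pool.Agent.Helper868.DHJ.LineFree A →
      Pool.Agent.Helper868.DHJ.dens A < r * p / 4)
    {F : ℂ → ℂ} {T₁ T H : ℝ} (hfin : (zeros F T₁ (T₁ + H)).Finite) (hT : 1 < T)
    (hH : 0 < H) (S : Finset ℝ) (hS : ∀ x ∈ S, IsSimpleOrd F T₁ (T₁ + H) x)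
    (hU : r * p * H ≤
      (volume (Pool.Agent.W201.UU (r * (2 * Real.pi / Real.log T) / 2) S)).toReal)
    (hrσ : r * (2 * Real.pi / Real.log T) ≤ H / 2)
    (a : Fin n → Fin (k + 1) → ℝ)
    (ha : ∀ j i, |a j i| ≤ 1 / (8 * Real.pi * ((n : ℝ) + 1)) * (H * Real.log T)) :
    ∃ J : Finset (Fin n), J.Nonempty ∧
      p / 4 / ((k : ℝ) + 2) ^ n * (H / (2 * Real.pi) * Real.log T) ≤
        (P F T T₁ (T₁ + H) r (∑ j ∈ J, a j) : ℝ) := by
  have hpi := Real.pi_pos
  have hlog : 0 < Real.log T := Real.log_pos hT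
  set σ : ℝ := 2 * Real.pi / Real.log T with hσ
  have hσ0 : 0 < σ := by positivity
  have hS' : ∀ x ∈ S, T₁ ≤ x ∧ x ≤ T₁ + H := fun x hx =>
    ⟨(ord_bd (hS x hx)).1.le, (ord_bd (hS x hx)).2⟩
  obtain ⟨J, hJ, h1⟩ := Pool.Agent.TH629.DZ.core (S := S) (A := T₁) (H := H) (r := r) (p := p)
    (σ := σ) hσ0 hH hr hp hS' hU hrσ hn a (by
      intro w
      have h2 : |∑ j, a j (w j)| ≤ n * (1 / (8 * Real.pi * ((n : ℝ) + 1)) * (H * Real.log T)) := by
        refine (Finset.abs_sum_le_sum_abs _ _).trans ?_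
        refine (Finset.sum_le_sum fun j _ => ha j (w j)).trans (le_of_eq ?_)
        rw [Finset.sum_const, Finset.card_univ, Fintype.card_fin, nsmul_eq_mul]
      have h3 : (n : ℝ) * (1 / (8 * Real.pi * ((n : ℝ) + 1)) * (H * Real.log T)) * σ =
          n / (n + 1) * (H / 4) := by
        rw [hσ]; field_simp; ring
      have h4 : (n : ℝ) / (n + 1) ≤ 1 := by
        rw [div_le_one (by positivity)]; linarith
      calc |∑ j, a j (w j)| * σ ≤
            n * (1 / (8 * Real.pi * ((n : ℝ) + 1)) * (H * Real.log T)) * σ :=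
              mul_le_mul_of_nonneg_right h2 hσ0.le
        _ = n / (n + 1) * (H / 4) := h3
        _ ≤ 1 * (H / 4) := mul_le_mul_of_nonneg_right h4 (by linarith)
        _ = H / 4 := one_mul _)
  refine ⟨J, hJ, ?_⟩
  have e1 : H / σ = H / (2 * Real.pi) * Real.log T := by rw [hσ]; field_simp
  rw [e1] at h1
  refine h1.trans ?_
  have h4 := P_ge hfin hT r (fun i => ∑ j ∈ J, a j i) hS
  have e2 : (fun i => ∑ j ∈ J, a j i) = ∑ j ∈ J, a j := by
    funext i
    rw [Finset.sum_apply]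
  rw [e2] at h4 ⊢
  exact_mod_cast h4

/-- **The density Hales-Jewett theorem for the zeros.** -/
theorem result (k : ℕ) (r : ℝ) (hr : 0 < r) :
    -- zeta
    (∃ n : ℕ, ∃ c₀ : ℝ, 0 < c₀ ∧ ∃ κ : ℝ, 0 < κ ∧ ∃ T₀ : ℝ, ∀ T : ℝ, T₀ ≤ T →
      ∀ a : Fin n → Fin (k + 1) → ℝ, (∀ j i, |a j i| ≤ κ * (T * Real.log T)) →
      ∃ J : Finset (Fin n), J.Nonempty ∧
        c₀ * (T / (2 * Real.pi) * Real.log T) ≤ (P riemannZeta T 0 T r (∑ j ∈ J, a j) : ℝ)) ∧
    -- the L-functions, in short intervals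
    (∀ h : ℝ, 0 < h → h ≤ 1 → c h < 2 →
      ∃ n : ℕ, ∃ c₀ : ℝ, 0 < c₀ ∧ ∃ κ : ℝ, 0 < κ ∧
      ∀ (q : ℕ) [NeZero q] (χ : DirichletCharacter ℂ q), χ.IsPrimitive →
      ∃ T₀ : ℝ, ∀ T : ℝ, T₀ ≤ T → ∀ H : ℝ, T ^ h ≤ H → H ≤ T →
      ∀ a : Fin n → Fin (k + 1) → ℝ, (∀ j i, |a j i| ≤ κ * (H * Real.log T)) →
      ∃ J : Finset (Fin n), J.Nonempty ∧ c₀ * (H / (2 * Real.pi) * Real.log T) ≤
        (P (DirichletCharacter.LFunction χ) T T (T + H) r (∑ j ∈ J, a j) : ℝ)) := by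
  have hpi := Real.pi_pos
  set r' : ℝ := min r (9 / 10) with hr'
  have hr'0 : 0 < r' := lt_min hr (by norm_num)
  have hr'1 : r' ≤ 9 / 10 := min_le_right _ _
  have hdhj : ∀ p : ℝ, 0 < p → ∃ n : ℕ, ∀ A : Set (Fin n → Fin (k + 1)),
      Pool.Agent.Helper868.DHJ.LineFree A → Pool.Agent.Helper868.DHJ.dens A < r' * p / 4 := by
    intro p hp
    obtain ⟨N, hN⟩ := Pool.Agent.Helper868.DHJ.density_hales_jewett (Fin (k + 1)) (r' * p / 4)
      (by positivity)
    exact ⟨N, fun A hA => hN (Fin N) (by simp) A hA⟩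
  constructor
  · obtain ⟨n, hn⟩ := hdhj (1 / 2) (by norm_num)
    obtain ⟨T₀, hT₀, h⟩ := zeta_data
    refine ⟨n, (1 / 2) / 4 / ((k : ℝ) + 2) ^ n, by positivity,
      1 / (8 * Real.pi * ((n : ℝ) + 1)), by positivity, T₀, fun T hT a ha => ?_⟩
    obtain ⟨h2, S, hS, hU⟩ := h T hT
    have hT10 : 10 ≤ T := hT₀.trans hT
    have hscale := scale_le hr'0 hr'1 h2
    obtain ⟨J, hJ, hJ1⟩ := core (k := k) (n := n) (p := 1 / 2) (r := r') hr'0 (by norm_num) hn
      (F := riemannZeta) (T₁ := 0) (T := T) (H := T)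
      (by rw [zero_add]; exact zeros_finite_zeta T) (by linarith) (by linarith)
      S (by rw [zero_add]; exact hS) (hU r' hr'0 hr'1) (by linarith) a ha
    rw [zero_add] at hJ1
    refine ⟨J, hJ, hJ1.trans ?_⟩
    exact_mod_cast P_mono (zeros_finite_zeta T) T (min_le_left _ _) _
  · intro h hh hh1 hc
    have hp0 : 0 < (2 - c h) / 2 := by linarith
    obtain ⟨n, hn⟩ := hdhj ((2 - c h) / 2) hp0
    refine ⟨n, ((2 - c h) / 2) / 4 / ((k : ℝ) + 2) ^ n, by positivity,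
      1 / (8 * Real.pi * ((n : ℝ) + 1)), by positivity, fun q _ χ hχ => ?_⟩
    obtain ⟨T₁, hT₁, h1⟩ := Pool.Agent.TH300.ZS.nbhd_asym (H370.good_dirichlet χ hχ) hh hh1 hp0
    rw [← c_eq hh] at h1
    have htop : Tendsto (fun T : ℝ => T ^ h) atTop atTop := tendsto_rpow_atTop hh
    obtain ⟨T₂, hT₂⟩ := (htop.eventually_ge_atTop 3).exists_forall_of_atTop
    obtain ⟨T₃, hT₃⟩ := (Real.tendsto_log_atTop.eventually_ge_atTop
      (2 * Real.pi)).exists_forall_of_atTop
    refine ⟨max (max T₁ T₂) (max T₃ 10), fun T hTT H hH hHT a ha => ?_⟩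
    have hTT1 : T₁ ≤ T := ((le_max_left _ _).trans (le_max_left _ _)).trans hTT
    have hTT2 := hT₂ T (((le_max_right _ _).trans (le_max_left _ _)).trans hTT)
    have hTT3 := hT₃ T (((le_max_left _ _).trans (le_max_right _ _)).trans hTT)
    have hT10 : 10 ≤ T := ((le_max_right _ _).trans (le_max_right _ _)).trans hTT
    have hHpos : 0 < H := by linarith
    obtain ⟨S, hS, hSU⟩ := h1 T hTT1 H hH hHT
    have hSo : ∀ x ∈ S, IsSimpleOrd (DirichletCharacter.LFunction χ) T (T + H) x := by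
      intro x hx
      obtain ⟨a1, a2, a3, a4⟩ := hS x hx
      rw [mul_comm] at a3 a4
      exact ⟨by rw [zeros_eq]; exact a3, a4⟩
    have hscale := scale_le hr'0 hr'1 hTT3
    have hfin := zeros_finite χ hχ T (T + H) (by linarith)
    obtain ⟨J, hJ, hJ1⟩ := core (k := k) (n := n) (p := (2 - c h) / 2) (r := r') hr'0 hp0 hn
      (F := DirichletCharacter.LFunction χ) (T₁ := T) (T := T) (H := H) hfin (by linarith) hHpos
      S hSo (by
        refine le_trans (le_of_eq ?_) (hSU r' hr'0 (by nlinarith))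
        ring) (by linarith) a ha
    refine ⟨J, hJ, hJ1.trans ?_⟩
    exact_mod_cast P_mono hfin T (min_le_left _ _) _

end Pool.Agent.Results.MP_f58427_nt.PatternSums
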