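import Pool.Agent.TH342.CV.Tuples
import Pool.Agent.H370R2.DirGood
import Pool.Agent.H370R2.Expl1

/-!
# Every three-point pattern of simple critical zeros occurs, unconditionally

No hypothesis is assumed.  Let `p = 2 - c_MT⁻¹ = 0.6725…` be the Montgomery-Taylor proportion.

For every `ε > 0` there is a length `L`, in mean spacings, such that for every primitive Dirichlet
L-function (modulus `1`: the Riemann zeta function) and all large `T` the windows
`(t, t + 2πL / log T)` that contain the ordinate of a simple zero on the critical line have measure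
at least `(p - ε) H` in `(T, T + H)`, `T ^ (1 - δ) ≤ H ≤ T`: at the scale of the mean spacing the
simple critical zeros cannot be concentrated on less than the proportion `p` of the line.

Consequently, for any `m` primitive Dirichlet L-functions (distinct or not), any shifts
`0 ≤ a_i ≤ T ^ (1 + δ)` and any `k < p m`, the proportion of the `t` for which more than `k` of the
windows `t + a_i + (0, 2πL / log T)` contain such an ordinate, each for its L-function, is at least
`(p m - k) / (m - k) - ε`.  Since `p > 2 / 3` this applies to `m = 3`, `k = 2`: every pattern of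
three points occurs with precision `L`, for a positive proportion of the `t`.

Idea of the proof.  The points of a cell of `g` mean spacings are unit vectors which are close to
the span of about `g` orthonormal vectors (sampled exponentials, Parseval's identity).  Bessel's
inequality shows that the best test matrix in the trace inequality for the zeros, the truncated
Gram matrix, gains so much that the cell counts for at most `g (1 + o(1))`, however many points it
contains.  So at least the proportion `p` of the cells is occupied.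
-/

open Filter Topology Complex MeasureTheory

namespace Pool.Agent.Results.MP_f58427_nt.ThreePointPatterns

/-- the Montgomery-Taylor proportion `2 - c_MT⁻¹ = 3/2 - cot(1/√2)/√2 = 0.6725…` -/
noncomputable def p : ℝ := 3 / 2 - Real.cot (1 / Real.sqrt 2) / Real.sqrt 2

/-- `1/2 + i x` is a simple zero of `F` -/
def Simple (F : ℂ → ℂ) (x : ℝ) : Prop :=
  F (1 / 2 + x * I) = 0 ∧ analyticOrderNatAt F (1 / 2 + x * I) = 1

/-- the window `(t, t + 2πL / log T)` contains the ordinate of a simple zero of `F` on the critical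
line -/
def Hit (F : ℂ → ℂ) (L T t : ℝ) : Prop :=
  ∃ x : ℝ, t < x ∧ x < t + L * (2 * Real.pi / Real.log T) ∧ Simple F x

/-- the tuples of ordinates `x i ∈ (T + a i, T + a i + H]` of simple zeros of `F i` on the critical
line with all `x i - a i` within `2πL / log T` of each other -/
def patterns {m : ℕ} (F : Fin m → ℂ → ℂ) (L T H : ℝ) (a : Fin m → ℝ) : Set (Fin m → ℝ) :=
  {x | (∀ i, T + a i < x i ∧ x i ≤ T + a i + H ∧ Simple (F i) (x i)) ∧
    ∀ i j, |(x i - a i) - (x j - a j)| < L * (2 * Real.pi / Real.log T)}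

/-- modulus `1`: the Riemann zeta function -/
theorem zeta_case (χ : DirichletCharacter ℂ 1) :
    χ.IsPrimitive ∧ DirichletCharacter.LFunction χ = riemannZeta := by
  refine ⟨?_, DirichletCharacter.LFunction_modOne_eq⟩
  rw [DirichletCharacter.level_one' χ rfl]
  exact DirichletCharacter.isPrimitive_one_level_one

/-- the sets of patterns are finite -/
theorem patterns_finite {m : ℕ} {q : Fin m → ℕ} [∀ i, NeZero (q i)]
    (χ : ∀ i, DirichletCharacter ℂ (q i)) (hχ : ∀ i, (χ i).IsPrimitive) (L T H : ℝ)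
    (a : Fin m → ℝ) (hT : 1 ≤ T) (ha : ∀ i, 0 ≤ a i) :
    (patterns (fun i => DirichletCharacter.LFunction (χ i)) L T H a).Finite :=
  TH342.CV.tup_finite (fun i => H370.good_dirichlet (χ i) (hχ i)) hT ha _

lemma p_eq : p = 2 - H370.cMTinv := by
  unfold p H370.cMTinv
  ring

lemma p_num : 0.672497 ≤ p := by
  rw [p_eq]
  have := H370.Expl.cMTinv_num
  norm_num at this ⊢
  linarith

theorem result :
    (∀ (m k : ℕ), (k : ℝ) < p * m → ∀ ε : ℝ, 0 < ε → ∃ L δ : ℝ, 0 < L ∧ 0 < δ ∧ δ < 1 ∧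
      ∀ (q : Fin m → ℕ) (_ : ∀ i, NeZero (q i)) (χ : ∀ i, DirichletCharacter ℂ (q i)),
      (∀ i, (χ i).IsPrimitive) → ∃ T₀ : ℝ, ∀ T : ℝ, T₀ ≤ T → ∀ H : ℝ, T ^ (1 - δ) ≤ H → H ≤ T →
      ∀ a : Fin m → ℝ, (∀ i, 0 ≤ a i ∧ a i ≤ T ^ (1 + δ)) →
      ENNReal.ofReal (((p * m - k) / (m - k) - ε) * H) ≤ volume {t : ℝ | T < t ∧ t < T + H ∧
        k < {i : Fin m | Hit (DirichletCharacter.LFunction (χ i)) L T (t + a i)}.ncard}) ∧
    (∃ L δ : ℝ, 0 < L ∧ 0 < δ ∧ δ < 1 ∧
      ∀ (q : Fin 3 → ℕ) (_ : ∀ i, NeZero (q i)) (χ : ∀ i, DirichletCharacter ℂ (q i)),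
      (∀ i, (χ i).IsPrimitive) → ∃ T₀ : ℝ, ∀ T : ℝ, T₀ ≤ T → ∀ H : ℝ, T ^ (1 - δ) ≤ H → H ≤ T →
      ∀ a : Fin 3 → ℝ, (∀ i, 0 ≤ a i ∧ a i ≤ T ^ (1 + δ)) →
      ENNReal.ofReal (H / 60) ≤ volume {t : ℝ | T < t ∧ t < T + H ∧
        ∀ i, Hit (DirichletCharacter.LFunction (χ i)) L T (t + a i)} ∧
      1 / (60 * L) * (H / (2 * Real.pi) * Real.log T) ≤
        ((patterns (fun i => DirichletCharacter.LFunction (χ i)) L T H a).ncard : ℝ)) ∧
    (∃ L δ T₀ : ℝ, 0 < L ∧ 0 < δ ∧ δ < 1 ∧ ∀ T : ℝ, T₀ ≤ T → ∀ H : ℝ, T ^ (1 - δ) ≤ H → H ≤ T →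
      ∀ α β : ℝ, 0 ≤ α → α ≤ T ^ (1 + δ) → 0 ≤ β → β ≤ T ^ (1 + δ) →
      1 / (60 * L) * (H / (2 * Real.pi) * Real.log T) ≤
        ({x : Fin 3 → ℝ | (∀ i, Simple riemannZeta (x i)) ∧ T < x 0 ∧ x 0 ≤ T + H ∧
          |x 1 - x 0 - α| < L * (2 * Real.pi / Real.log T) ∧
          |x 2 - x 0 - β| < L * (2 * Real.pi / Real.log T)}.ncard : ℝ)) := by
  have hpn := p_num
  -- the second part
  have two : ∃ L δ : ℝ, 0 < L ∧ 0 < δ ∧ δ < 1 ∧
      ∀ (q : Fin 3 → ℕ) (_ : ∀ i, NeZero (q i)) (χ : ∀ i, DirichletCharacter ℂ (q i)),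
      (∀ i, (χ i).IsPrimitive) → ∃ T₀ : ℝ, ∀ T : ℝ, T₀ ≤ T → ∀ H : ℝ, T ^ (1 - δ) ≤ H → H ≤ T →
      ∀ a : Fin 3 → ℝ, (∀ i, 0 ≤ a i ∧ a i ≤ T ^ (1 + δ)) →
      ENNReal.ofReal (H / 60) ≤ volume {t : ℝ | T < t ∧ t < T + H ∧
        ∀ i, Hit (DirichletCharacter.LFunction (χ i)) L T (t + a i)} ∧
      1 / (60 * L) * (H / (2 * Real.pi) * Real.log T) ≤
        ((patterns (fun i => DirichletCharacter.LFunction (χ i)) L T H a).ncard : ℝ) := by
    obtain ⟨L, hL, δ, hδ0, hδ1, h⟩ := TH342.CV.joint (m := 3) (k := 2) (by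
      rw [← p_eq]; norm_num; norm_num at hpn; linarith) (ε := 1 / 2000) (by norm_num)
    refine ⟨L, δ, hL, hδ0, hδ1, fun q hq χ hχ => ?_⟩
    obtain ⟨T0, hT0, hT⟩ := h (fun i => DirichletCharacter.LFunction (χ i))
      (fun i => H370.good_dirichlet (χ i) (hχ i))
    refine ⟨T0, fun T hTT H hH hHT a ha => ?_⟩
    have hT10 : 10 ≤ T := hT0.trans hTT
    have hH0 : 0 < H := lt_of_lt_of_le (Real.rpow_pos_of_pos (by linarith) _) hH
    have hlog : 0 < Real.log T := Real.log_pos (by linarith)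
    have hpi := Real.pi_pos
    have key := hT T hTT H hH hHT a ha
    have hv : ENNReal.ofReal (H / 60) ≤ ENNReal.ofReal ((((2 - H370.cMTinv) * (3 : ℕ) - (2 : ℕ)) /
        ((3 : ℕ) - (2 : ℕ)) - 1 / 2000) * H) := by
      apply ENNReal.ofReal_le_ofReal
      rw [← p_eq]
      push_cast
      have : (1 / 60 : ℝ) ≤ (p * 3 - 2) / (3 - 2) - 1 / 2000 := by
        norm_num at hpn ⊢
        linarith
      have h2 := mul_le_mul_of_nonneg_right this hH0.le
      linarith
    have key2 := hv.trans key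
    constructor
    · refine key2.trans (measure_mono ?_)
      rintro t ⟨ht, hm⟩
      refine ⟨ht.1, ht.2, fun i => ?_⟩
      have h1 : {i : Fin 3 | t ∈ {t : ℝ | T < t ∧ t < T + H ∧ ∃ x : ℝ, t + a i < x ∧
            x < t + a i + L * (2 * Real.pi / Real.log T) ∧ x ≤ T + a i + H ∧
              TH342.CV.SimpleAt (DirichletCharacter.LFunction (χ i)) x}} = Set.univ := by
        apply Set.eq_of_subset_of_ncard_le (Set.subset_univ _)
        rw [Set.ncard_univ, Nat.card_eq_fintype_card, Fintype.card_fin]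
        exact hm
      have h2 : i ∈ {i : Fin 3 | t ∈ {t : ℝ | T < t ∧ t < T + H ∧ ∃ x : ℝ, t + a i < x ∧
            x < t + a i + L * (2 * Real.pi / Real.log T) ∧ x ≤ T + a i + H ∧
              TH342.CV.SimpleAt (DirichletCharacter.LFunction (χ i)) x}} := by
        rw [h1]; exact Set.mem_univ i
      obtain ⟨-, -, x, h3, h4, -, h6⟩ := h2
      exact ⟨x, h3, h4, h6⟩
    · have h3 := TH342.CV.tuples (F := fun i => DirichletCharacter.LFunction (χ i))
        (fun i => H370.good_dirichlet (χ i) (hχ i)) (T := T) (H := H) (a := a) (by linarith)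
        (fun i => (ha i).1) (r := L * (2 * Real.pi / Real.log T)) (v := H / 60) (by positivity)
        (by norm_num) key2
      have e : H / 60 / (L * (2 * Real.pi / Real.log T)) =
          1 / (60 * L) * (H / (2 * Real.pi) * Real.log T) := by
        field_simp
      rw [e] at h3
      exact h3
  refine ⟨fun m k hk ε hε => ?_, two, ?_⟩
  · rw [p_eq] at hk
    obtain ⟨L, hL, δ, hδ0, hδ1, h⟩ := TH342.CV.joint hk hε
    refine ⟨L, δ, hL, hδ0, hδ1, fun q hq χ hχ => ?_⟩
    obtain ⟨T0, hT0, hT⟩ := h (fun i => DirichletCharacter.LFunction (χ i))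
      (fun i => H370.good_dirichlet (χ i) (hχ i))
    refine ⟨T0, fun T hTT H hH hHT a ha => ?_⟩
    rw [p_eq]
    refine (hT T hTT H hH hHT a ha).trans (measure_mono ?_)
    rintro t ⟨ht, hm⟩
    refine ⟨ht.1, ht.2, lt_of_lt_of_le (Nat.lt_succ_self k) (hm.trans ?_)⟩
    apply Set.ncard_le_ncard _ (Set.toFinite _)
    rintro i ⟨-, -, x, h3, h4, -, h6⟩
    exact ⟨x, h3, h4, h6⟩
  · obtain ⟨L, δ, hL, hδ0, hδ1, h⟩ := two
    obtain ⟨T0, hT⟩ := h (fun _ => 1) (fun _ => inferInstance) (fun _ => 1)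
      (fun _ => (zeta_case 1).1)
    refine ⟨L, δ, max T0 (max 10 (Real.exp (L * (2 * Real.pi)))), hL, hδ0, hδ1,
      fun T hTT H hH hHT α β hα hα' hβ hβ' => ?_⟩
    have hTT0 : T0 ≤ T := (le_max_left _ _).trans hTT
    have hT10 : 10 ≤ T := ((le_max_left _ _).trans (le_max_right _ _)).trans hTT
    have hTe : Real.exp (L * (2 * Real.pi)) ≤ T :=
      ((le_max_right _ _).trans (le_max_right _ _)).trans hTT
    have hpow : 0 ≤ T ^ (1 + δ) := Real.rpow_nonneg (by linarith) _
    set a : Fin 3 → ℝ := ![0, α, β] with ha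
    have a0 : a 0 = 0 := rfl
    have a1 : a 1 = α := rfl
    have a2 : a 2 = β := rfl
    have ha' : ∀ i, 0 ≤ a i ∧ a i ≤ T ^ (1 + δ) := by
      intro i
      fin_cases i
      · exact ⟨le_rfl, hpow⟩
      · exact ⟨hα, hα'⟩
      · exact ⟨hβ, hβ'⟩
    refine (hT T hTT0 H hH hHT a ha').2.trans ?_
    have hlog : 0 < Real.log T := Real.log_pos (by linarith)
    have hpi := Real.pi_pos
    have hr1 : L * (2 * Real.pi / Real.log T) ≤ 1 := by
      have h1 : L * (2 * Real.pi) ≤ Real.log T := by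
        rw [← Real.log_exp (L * (2 * Real.pi))]
        exact Real.log_le_log (Real.exp_pos _) hTe
      rw [mul_div_assoc', div_le_one hlog]
      exact h1
    set r : ℝ := L * (2 * Real.pi / Real.log T) with hr
    have hfin : {x : Fin 3 → ℝ | (∀ i, Simple riemannZeta (x i)) ∧ T < x 0 ∧ x 0 ≤ T + H ∧
          |x 1 - x 0 - α| < r ∧ |x 2 - x 0 - β| < r}.Finite := by
      have hg := H370.good_dirichlet (1 : DirichletCharacter ℂ 1) (zeta_case 1).1
      rw [(zeta_case 1).2] at hg
      have h1 := Set.Finite.pi' (fun _ : Fin 3 => TH342.CV.simple_finite hg (T1 := 1)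
        (T2 := T + H + α + β + r) le_rfl)
      refine h1.subset ?_
      rintro x ⟨hs, h2, h3, h4, h5⟩ i
      rw [abs_lt] at h4 h5
      fin_cases i
      · refine ⟨?_, ?_, hs 0⟩
        · change 1 < x 0; linarith
        · change x 0 ≤ _; linarith
      · refine ⟨?_, ?_, hs 1⟩
        · change 1 < x 1; linarith
        · change x 1 ≤ _; linarith
      · refine ⟨?_, ?_, hs 2⟩
        · change 1 < x 2; linarith
        · change x 2 ≤ _; linarith
    have hle := Set.ncard_le_ncard (s := patterns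
      (fun _ => DirichletCharacter.LFunction (1 : DirichletCharacter ℂ 1)) L T H a) (by
      rintro x ⟨hx1, hx2⟩
      rw [(zeta_case 1).2] at hx1
      refine ⟨fun i => (hx1 i).2.2, ?_, ?_, ?_, ?_⟩
      · have := (hx1 0).1
        rw [a0] at this; linarith
      · have := (hx1 0).2.1
        rw [a0] at this; linarith
      · have := hx2 1 0
        rw [a0, a1] at this
        rw [show x 1 - x 0 - α = x 1 - α - (x 0 - 0) by ring]
        exact this
      · have := hx2 2 0
        rw [a0, a2] at this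
        rw [show x 2 - x 0 - β = x 2 - β - (x 0 - 0) by ring]
        exact this) hfin
    exact_mod_cast hle

end Pool.Agent.Results.MP_f58427_nt.ThreePointPatterns
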