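import Pool.Agent.TH850.UR.Comp

/-!
# Number rigidity of the zeta zeros, unconditionally

The number of zeros of zeta in a window of a bounded number of mean spacings is determined, up to
an arbitrarily small proportion of exceptions, by the zeros outside of the window.  This is the
analogue for the zeros of the number rigidity of the sine process (Ghosh, Ghosh and Peres), the
conjectural limit of the zeros on the scale of the mean spacing.  No hypothesis is made: the zeros
may be off the critical line, and they enter with their complex positions.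

With the average `phi q J` of the Fejer kernels `(sin (π z / 2 ^ j) / (π z / 2 ^ j)) ^ 2`,
`q < j ≤ q + J`, the number `count T a t` of zeros whose ordinate is within `a` mean spacings of
`t` is close to `guess q J T a t = 2 ^ q (2 ^ (J + 1) - 2) / J - Re ∑ phi q J (Z T t s)`, the sum
being over the zeros `s` whose ordinate is at a distance between `a` and `2 ^ q 4 ^ J` mean
spacings from `t`.
-/

open MeasureTheory

namespace Pool.Agent.Results.MP_f58427_nt.UnconditionalRigidity

/-- the nontrivial zeros of zeta, on the critical line or not -/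
def zeros : Set ℂ := {s : ℂ | riemannZeta s = 0 ∧ 0 < s.re ∧ s.re < 1}

/-- the multiplicity of a zero -/
noncomputable def m (s : ℂ) : ℕ := analyticOrderNatAt riemannZeta s

/-- the position of the ordinate of `s` relative to `t`, in units of the mean spacing
`2π / log T` -/
noncomputable def X (T t : ℝ) (s : ℂ) : ℝ := (s.im - t) * Real.log T / (2 * Real.pi)

/-- the position of `s` relative to `1 / 2 + i t`, in units of the mean spacing: a complex number
with real part `X T t s`, which is real if and only if `s` is on the critical line -/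
noncomputable def Z (T t : ℝ) (s : ℂ) : ℂ :=
  ((s - 1 / 2) / Complex.I - t) * Real.log T / (2 * Real.pi)

/-- the number of zeros in the window of `a` mean spacings to both sides of `t`, counted with
multiplicity -/
noncomputable def count (T a t : ℝ) : ℕ := ∑ᶠ s ∈ {s : ℂ | s ∈ zeros ∧ |X T t s| ≤ a}, m s

/-- the Fejer kernel -/
noncomputable def fejer (z : ℂ) : ℂ := if z = 0 then 1 else (Complex.sin z / z) ^ 2

/-- the average of the Fejer kernels on the scales `2 ^ (q + 1), …, 2 ^ (q + J)` -/
noncomputable def phi (q J : ℕ) (z : ℂ) : ℂ :=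
  (∑ j ∈ Finset.Icc (q + 1) (q + J), fejer (Real.pi * z / 2 ^ j)) / J

/-- the guess for `count T a t` that is made from the zeros outside of the window, up to the
distance of `2 ^ q * 4 ^ J` mean spacings; `2 ^ q * (2 ^ (J + 1) - 2) / J` is the integral of
`phi q J` over the real line -/
noncomputable def guess (q J : ℕ) (T a t : ℝ) : ℝ :=
  2 ^ q * (2 ^ (J + 1) - 2) / J -
    (∑ᶠ s ∈ {s : ℂ | s ∈ zeros ∧ a < |X T t s| ∧ |X T t s| ≤ 2 ^ q * 4 ^ J},
      m s * phi q J (Z T t s)).re

/-- There are absolute constants `C` and `q` such that, for all `a > 0` and all `J ≥ 1`, on average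
over `t ∈ [T, 2T]` the number of zeros in the window of `a` mean spacings around `t` differs from
the guess made from the zeros outside of the window by at most `C (J ^ (-1/2) + a ^ 3 / J)`, if `T`
is large enough; and it is the nearest integer to that guess for all `t ∈ [T, 2T]` outside a set of
measure at most `2 C (J ^ (-1/2) + a ^ 3 / J) T`. -/
theorem result :
    ∃ C : ℝ, 0 < C ∧ ∃ q : ℕ, ∀ a : ℝ, 0 < a → ∀ J : ℕ, 1 ≤ J → ∃ T₀ : ℝ, ∀ T : ℝ, T₀ ≤ T →
      IntervalIntegrable (fun t => (count T a t : ℝ) - guess q J T a t) volume T (2 * T) ∧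
      ∫ t in T..(2 * T), |(count T a t : ℝ) - guess q J T a t| ≤
        C * (1 / Real.sqrt J + a ^ 3 / J) * T ∧
      volume {t : ℝ | T ≤ t ∧ t ≤ 2 * T ∧ round (guess q J T a t) ≠ (count T a t : ℤ)} ≤
        ENNReal.ofReal (2 * (C * (1 / Real.sqrt J + a ^ 3 / J) * T)) := by
  have hc : ∀ T a t : ℝ, count T a t = Pool.Agent.TH850.UR.count T a t := fun T a t => rfl
  have hphi : ∀ (q J : ℕ) (z : ℂ), phi q J z = Pool.Agent.TH850.UR.phiC J (z / 2 ^ q) := by
    intro q J z
    unfold phi Pool.Agent.TH850.UR.phiC
    congr 1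
    have h := Finset.sum_image (s := Finset.Icc 1 J) (g := fun j : ℕ => q + j)
      (f := fun j : ℕ => fejer (Real.pi * z / 2 ^ j)) (fun a _ b _ hab => Nat.add_left_cancel hab)
    rw [Finset.image_add_left_Icc] at h
    rw [h]
    refine Finset.sum_congr rfl fun j _ => ?_
    show fejer (Real.pi * z / 2 ^ (q + j)) = fejer (Real.pi * (z / 2 ^ q) / 2 ^ j)
    congr 1
    rw [pow_add]
    field_simp
  have hZ : ∀ (T t : ℝ) (s : ℂ), Z T t s = Pool.Agent.TH850.UR.Z T t s := by
    intro T t s
    unfold Z Pool.Agent.TH850.UR.Z H370.zz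
    push_cast
    rw [Complex.div_I]
    ring
  have hg : ∀ (q J : ℕ) (T a t : ℝ), guess q J T a t = Pool.Agent.TH850.UR.guess q J T a t := by
    intro q J T a t
    unfold guess Pool.Agent.TH850.UR.guess Pool.Agent.TH850.UR.outer Pool.Agent.TH850.NR.cc
    rw [mul_div_assoc]
    simp_rw [hphi, hZ]
    rfl
  obtain ⟨C, hC, q, h⟩ := Pool.Agent.TH850.UR.main
  refine ⟨C, hC, q, fun a ha J hJ => ?_⟩
  obtain ⟨T0, hT0, h1⟩ := h a ha.le J hJ
  refine ⟨T0, fun T hT => ?_⟩
  obtain ⟨hI, hB⟩ := h1 T hT
  simp_rw [hc, hg]
  exact ⟨hI, hB, Pool.Agent.TH850.UR.markov q J (by linarith) hI hB⟩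

end Pool.Agent.Results.MP_f58427_nt.UnconditionalRigidity
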